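import Pool.Agent.Zk91.KB.BdyFin

/-!
# Boundary-adapted random waves on arithmetic billiards (MP_6b977f_mp)

The plane is `ℂ`; `lap` is the Laplacian, `J0` the Bessel function, both from earlier files.

A set `M` of pairs (point, unit normal) describes mirrors: `Dirichlet M u` says that `u` vanishes at
the points, `Neumann M u` that the normal derivative vanishes. `Grid a b` are the lines
`Re z ∈ a ℤ`, `Im z ∈ b ℤ`; `Kaleidoscope r s` are the lines `Re (e^{iπk/r} z) ∈ s ℤ` (`k` even),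
`Re (e^{iπk/r} z) ∈ 2 cos (π/r) s ℤ` (`k` odd): for `r = 4` the mirrors of the tiling by right
isosceles triangles, for `r = 6` the lines through the sides and the altitudes of the tiling by
equilateral triangles. A bounded domain with frontier in the mirrors is a billiard: rectangles with
rational squared ratio of the sides, the triangles with angles `60-60-60`, `45-45-90`, `30-60-90`,
all polygons tiled by one of them.

Near a straight piece of the boundary the field `w ↦ u (z + ν w / √λ)` (`z` on the boundary, `ν` the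
normal there; `Re w` is the normal and `Im w` the tangential coordinate) is odd (Dirichlet) or even
(Neumann) under `w ↦ -conj w`, so its law cannot be the isotropic random wave `Ψ`. Berry's
boundary-adapted random wave is `(Ψ(w) ∓ Ψ(-conj w)) / √2`, with covariance
`J0 |w - w'| ∓ J0 |w + conj w'|`. The theorem: there are eigenfunctions, with mean square tending to
`1` on every convex window, whose law at EVERY mirror converges to it, uniformly for all segments of
at least `ψ(λ)` wavelengths on all mirrors, where `ψ → ∞` is any function given in advance.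
-/

set_option autoImplicit false

open Filter Topology MeasureTheory Set
open scoped ContDiff

namespace Pool.Agent.Results.MP_6b977f_mp.BoundaryWaves

open Pool.Agent.W745.RW (lap)
open Pool.Agent.N661.BR (J0)
open Pool.Agent.Zk91.KB (Mirror Kal Num K2 K4 K6 Adapt)

/-- the lines `Re z ∈ a ℤ` with normal `1` and the lines `Im z ∈ b ℤ` with normal `i` -/
def Grid (a b : ℝ) : Set (ℂ × ℂ) :=
  {p | (p.2 = 1 ∧ ∃ j : ℤ, p.1.re = j * a) ∨ (p.2 = Complex.I ∧ ∃ j : ℤ, p.1.im = j * b)}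

/-- the lines of `Mirror r s k` with normal `e^{-iπk/r}` -/
def Kaleidoscope (r : ℕ) (s : ℝ) : Set (ℂ × ℂ) :=
  {p | ∃ k : ℕ, p.1 ∈ Mirror r s k ∧
    p.2 = Complex.exp (-(Complex.I * ((Real.pi * k / r : ℝ) : ℂ)))}

/-- the mirrors which are considered: rectangular grids with rational squared ratio of the sides,
the square and the triangular kaleidoscope -/
def IsArithmetic (M : Set (ℂ × ℂ)) : Prop :=
  (∃ (a b : ℝ) (p q : ℕ), 0 < a ∧ 0 < b ∧ 0 < p ∧ 0 < q ∧ q * a ^ 2 = p * b ^ 2 ∧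
    M = Grid a b) ∨
  ∃ s : ℝ, 0 < s ∧ (M = Kaleidoscope 4 s ∨ M = Kaleidoscope 6 s)

/-- the Dirichlet condition on the mirrors -/
def Dirichlet (M : Set (ℂ × ℂ)) (u : ℂ → ℝ) : Prop := ∀ p ∈ M, u p.1 = 0

/-- the Neumann condition on the mirrors -/
def Neumann (M : Set (ℂ × ℂ)) (u : ℂ → ℝ) : Prop := ∀ p ∈ M, fderiv ℝ u p.1 p.2 = 0

/-- the variance of `∑ t j * Φ (w j)` for the boundary-adapted random wave `Φ` of the half plane
`Re w > 0`; `e = 1` for the Dirichlet, `e = -1` for the Neumann condition -/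
noncomputable def Q {k : ℕ} (e : ℝ) (w : Fin k → ℂ) (t : Fin k → ℝ) : ℝ :=
  ∑ i, ∑ j, t i * t j * (J0 ‖w i - w j‖ - e * J0 ‖w i + (starRingEnd ℂ) (w j)‖)

/-- the conclusion of the theorem -/
def Conclusion (M : Set (ℂ × ℂ)) (BC : (ℂ → ℝ) → Prop) (e : ℝ) (ψ : ℝ → ℝ) : Prop :=
  ∃ (lam : ℕ → ℝ) (u : ℕ → ℂ → ℝ), Tendsto lam atTop atTop ∧
    (∀ n, ContDiff ℝ ∞ (u n)) ∧ (∀ n z, lap (u n) z + lam n * u n z = 0) ∧ (∀ n, BC (u n)) ∧
    (∀ C : Set ℂ, Convex ℝ C → Bornology.IsBounded C → 0 < volume.real C →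
      Tendsto (fun n => 1 / volume.real C * ∫ z in C, u n z ^ 2) atTop (𝓝 1)) ∧
    ∀ (k : ℕ) (ρ ε : ℝ), 0 < ε → ∀ᶠ n in atTop,
      ∀ p ∈ M, ∀ h : ℝ, 0 < h → ψ (lam n) ≤ √(lam n) * h →
        ∀ (w : Fin k → ℂ) (t : Fin k → ℝ), (∀ j, ‖w j‖ ≤ ρ) → (∀ j, |t j| ≤ ρ) →
          |1 / h * (∫ y in (0 : ℝ)..h, (∑ j, t j * u n (p.1 + (y : ℂ) * Complex.I * p.2 +
            p.2 * w j / ((√(lam n) : ℝ) : ℂ))) ^ 2) - Q e w t| ≤ ε ∧
          ‖((1 / h : ℝ) : ℂ) * (∫ y in (0 : ℝ)..h, Complex.exp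
            (Complex.I * ((∑ j, t j * u n (p.1 + (y : ℂ) * Complex.I * p.2 +
            p.2 * w j / ((√(lam n) : ℝ) : ℂ)) : ℝ) : ℂ))) -
            ((Real.exp (-(Q e w t) / 2) : ℝ) : ℂ)‖ ≤ ε

theorem conclusion_of {ν : ℕ} (K : Kal ν) (M : Set (ℂ × ℂ)) (hA : ∀ p ∈ M, Adapt K p)
    (hD : ∀ (n : ℕ) (d : Num K.D (K.B + K.B) n) (R : ℕ), Dirichlet M (K.u d R 0))
    (hN : ∀ (n : ℕ) (d : Num K.D (K.B + K.B) n) (R : ℕ), Neumann M (K.u d R (Real.pi / 2)))
    (BC : (ℂ → ℝ) → Prop) (e : ℝ)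
    (hBC : (BC = Dirichlet M ∧ e = 1) ∨ (BC = Neumann M ∧ e = -1)) (ψ : ℝ → ℝ)
    (hψ : Tendsto ψ atTop atTop) : Conclusion M BC e ψ := by
  obtain ⟨d, R, hR, hlam, hmain⟩ := Pool.Agent.Zk91.KB.bdy_main K ψ hψ
  have main : ∀ φ : ℝ, Real.sin (2 * φ) = 0 → Real.cos (2 * φ) = e →
      (∀ n, BC (K.u (d n) (R n) φ)) → Conclusion M BC e ψ := by
    intro φ hφ hφe hb
    obtain ⟨h1, h2⟩ := hmain φ hφ
    refine ⟨fun n => K.lam (d n) (R n), fun n => K.u (d n) (R n) φ, hlam,
      fun n => K.contDiff (d n) (R n) φ, fun n z => K.helmholtz (d n) (R n) φ z, hb, h1,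
      fun k ρ ε hε => ?_⟩
    filter_upwards [h2 k ρ ε hε] with n hn
    intro p hp h hh hψh w t hw ht
    have key := hn p (hA p hp) h hh hψh w t hw ht
    rw [hφe] at key
    exact key
  rcases hBC with ⟨h, he⟩ | ⟨h, he⟩
  · exact main 0 (by simp) (by simp [he]) fun n => by rw [h]; exact hD n (d n) (R n)
  · have e1 : 2 * (Real.pi / 2) = Real.pi := by ring
    exact main (Real.pi / 2) (by rw [e1]; exact Real.sin_pi) (by rw [e1, he]; exact Real.cos_pi)
      fun n => by rw [h]; exact hN n (d n) (R n)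

/-- **Theorem.** Let `M` be the mirrors of an arithmetic kaleidoscope, `BC` the Dirichlet condition
on them (`e = 1`) or the Neumann condition (`e = -1`), and `ψ` any function with `ψ → ∞`. There are
`lam n → ∞` and smooth `u n` on the plane with `Δ(u n) + lam n * u n = 0` and `BC (u n)`, with mean
square tending to `1` on every bounded convex set of positive area, such that for all `k, ρ, ε > 0`
and all large `n` the following holds for EVERY mirror point `p.1` with normal `p.2` and every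
`h > 0` with `ψ (lam n) ≤ √(lam n) * h`: for the point `z = p.1 + i y p.2` of the mirror, `y` random in
`[0, h]`, the second moment and the characteristic function of
`∑ t j * u n (z + p.2 * w j / √(lam n))` differ by at most `ε` from those of the boundary-adapted
random wave, for all `k` points `w` in the disc of radius `ρ` and all `k` coefficients `t` in
`[-ρ, ρ]`. -/
theorem result (M : Set (ℂ × ℂ)) (hM : IsArithmetic M) (BC : (ℂ → ℝ) → Prop) (e : ℝ)
    (hBC : (BC = Dirichlet M ∧ e = 1) ∨ (BC = Neumann M ∧ e = -1)) (ψ : ℝ → ℝ)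
    (hψ : Tendsto ψ atTop atTop) :
    ∃ (lam : ℕ → ℝ) (u : ℕ → ℂ → ℝ), Tendsto lam atTop atTop ∧
      (∀ n, ContDiff ℝ ∞ (u n)) ∧ (∀ n z, lap (u n) z + lam n * u n z = 0) ∧ (∀ n, BC (u n)) ∧
      (∀ C : Set ℂ, Convex ℝ C → Bornology.IsBounded C → 0 < volume.real C →
        Tendsto (fun n => 1 / volume.real C * ∫ z in C, u n z ^ 2) atTop (𝓝 1)) ∧
      ∀ (k : ℕ) (ρ ε : ℝ), 0 < ε → ∀ᶠ n in atTop,
        ∀ p ∈ M, ∀ h : ℝ, 0 < h → ψ (lam n) ≤ √(lam n) * h →
          ∀ (w : Fin k → ℂ) (t : Fin k → ℝ), (∀ j, ‖w j‖ ≤ ρ) → (∀ j, |t j| ≤ ρ) →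
            |1 / h * (∫ y in (0 : ℝ)..h, (∑ j, t j * u n (p.1 + (y : ℂ) * Complex.I * p.2 +
              p.2 * w j / ((√(lam n) : ℝ) : ℂ))) ^ 2) - Q e w t| ≤ ε ∧
            ‖((1 / h : ℝ) : ℂ) * (∫ y in (0 : ℝ)..h, Complex.exp
              (Complex.I * ((∑ j, t j * u n (p.1 + (y : ℂ) * Complex.I * p.2 +
              p.2 * w j / ((√(lam n) : ℝ) : ℂ)) : ℝ) : ℂ))) -
              ((Real.exp (-(Q e w t) / 2) : ℝ) : ℂ)‖ ≤ ε := by
  rcases hM with ⟨a, b, p, q, ha, hb, hp, hq, hab, rfl⟩ | ⟨s, hs, rfl | rfl⟩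
  · refine conclusion_of (K2 a b ha hb p q hp hq hab) _ ?_ (fun n d R => ?_) (fun n d R => ?_) BC e
      hBC ψ hψ
    · rintro ⟨z, v⟩ (⟨hv, h⟩ | ⟨hv, h⟩)
      · simp only at hv
        subst hv
        exact Pool.Agent.Zk91.KB.adapt2_re a b ha hb p q hp hq hab z h
      · simp only at hv
        subst hv
        exact Pool.Agent.Zk91.KB.adapt2_im a b ha hb p q hp hq hab z h
    · rintro ⟨z, v⟩ (⟨-, h⟩ | ⟨-, h⟩)
      · refine (K2 a b ha hb p q hp hq hab).dir_re d a ?_ R z h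
        show Real.pi / a * a = Real.pi
        field_simp
      · refine (K2 a b ha hb p q hp hq hab).dir_im d b ?_ R z h
        show Real.pi / b * b = Real.pi
        field_simp
    · rintro ⟨z, v⟩ (⟨hv, h⟩ | ⟨hv, h⟩)
      · simp only at hv
        subst hv
        refine (K2 a b ha hb p q hp hq hab).neu_re d a ?_ R z h
        show Real.pi / a * a = Real.pi
        field_simp
      · simp only at hv
        subst hv
        refine (K2 a b ha hb p q hp hq hab).neu_im d b ?_ R z h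
        show Real.pi / b * b = Real.pi
        field_simp
  · refine conclusion_of (K4 s hs) _ ?_ (fun n d R => ?_) (fun n d R => ?_) BC e hBC ψ hψ
    · rintro ⟨z, v⟩ ⟨k, hz, hv⟩
      simp only at hv
      subst hv
      exact Pool.Agent.Zk91.KB.adapt4 s hs k z hz
    · rintro ⟨z, v⟩ ⟨k, hz, -⟩
      exact Pool.Agent.Zk91.KB.dir4 s hs d R k z hz
    · rintro ⟨z, v⟩ ⟨k, hz, hv⟩
      simp only at hv
      subst hv
      exact Pool.Agent.Zk91.KB.neu4 s hs d R k z hz
  · refine conclusion_of (K6 s hs) _ ?_ (fun n d R => ?_) (fun n d R => ?_) BC e hBC ψ hψ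
    · rintro ⟨z, v⟩ ⟨k, hz, hv⟩
      simp only at hv
      subst hv
      exact Pool.Agent.Zk91.KB.adapt6 s hs k z hz
    · rintro ⟨z, v⟩ ⟨k, hz, -⟩
      exact Pool.Agent.Zk91.KB.dir6 s hs d R k z hz
    · rintro ⟨z, v⟩ ⟨k, hz, hv⟩
      simp only at hv
      subst hv
      exact Pool.Agent.Zk91.KB.neu6 s hs d R k z hz

end Pool.Agent.Results.MP_6b977f_mp.BoundaryWaves
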