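import Pool.Agent.Zk91.SQ.End4
import Pool.Agent.Zk85.SQ.M1
import Pool.Agent.Zk63.SQ.M2
import Pool.Agent.Zk50.SQ.M3
import Pool.Agent.Zk80.SQ.M4
import Pool.Agent.Zk55.SQ.M5
import Pool.Agent.Zk80.SQ.B1
import Pool.Agent.Zk55.SQ.B4
import Pool.Agent.Zk63.SQ.B3
import Pool.Agent.Zk85.SQ.E
import Pool.Agent.Zk80.SQ.W1
import Pool.Agent.Zk91.SQ.W2
import Pool.Agent.Zk85.SQ.W3
import Pool.Agent.Zk55.SQ.W4
import Pool.Agent.Zk50.SQ.W5
import Pool.Agent.Zk91.SQ.W7
import Pool.Agent.Zk20.SQ.W8
import Pool.Agent.Zk99.SQ.V1
import Pool.Agent.Zk91.SQ.V2b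
import Pool.Agent.Zk20.SQ.V3

/-!
# Berry's random waves in the square, with full density (MP_6b977f_mp)

The plane is `ℂ`; `C(ℂ, ℝ)` is the space of the continuous real functions on the plane with the
topology of locally uniform convergence (the topology of the metric `d` of the problem) and its
Borel σ-algebra. `lap` is the Laplacian, `J0` the Bessel function, `resc χ Ω lam u z` the rescaled
function `w ↦ u (z + lam^{-1/2} w) χ (|w| / (lam^{1/2} dist (z, ∂Ω)))` of the problem, `IsCutoff χ` says
that `χ` is a cut-off as in the problem (`Pool.Agent.N661.BR.Defs`).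

The square billiard is not chaotic, but it has the conclusion of Q1, with full density, for a
suitable basis: for the Dirichlet and for the Neumann condition there is an orthonormal basis of
real eigenfunctions `u n` (rescaled to mean square one; all eigenvalues `lam n`, with multiplicity,
in increasing order) and a subsequence `u (σ j)` of full density, whose local measures converge
weakly to the law `μ` of the isotropic random wave, for every cut-off.

Proof. The eigenspace for `(π/a)² N` has the product basis indexed by the points of the circle of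
radius `√N` with positive (or non-negative) integer coordinates.

(1) For almost all points `p` (ordered by `|p|²`), the circle through `p` has many points and they are
nearly equidistributed. The angular sums over the circle are at most the number of points times
`∏ |cos (4 k θ_p)|`, over the primes `p = 1` mod `4` in a finite set which divide `N` exactly once;
the mean of this product over all Gaussian integers is computed by divisibility; the product over
all such primes tends to zero, because `∑ (1 - |cos (4 k θ_p)|) / p` diverges; otherwise the Dirichlet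
series of an angular character would tend to infinity at `1`, but it is bounded: the residue
classes modulo `2 + i` contribute nearly the same.

(2) In an eigenspace of large dimension, order the points by the angle, divide them into `K`
consecutive arcs, and take blocks with one point of each arc; to each block apply a Hadamard matrix.
The arcs can be shifted against each other such that almost all blocks have no short integer
relation between their coordinates, because a straight line meets the circle at most twice. For
such a block the values are nearly those of independent variables, on all convex windows which are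
not too small, and the central limit theorem with error estimates applies; the covariance is that
of the equidistributed points, that is `J0`.

(3) Tightness: by the mean value property the values and the differences of an eigenfunction in a
ball are bounded by the mean square in a larger ball, whose average over the square is bounded. With
the theorems of Arzelà-Ascoli and Prokhorov the local measures converge weakly. Almost all functions
for the limit are reproduced by a smooth radial kernel, so they are smooth solutions.
-/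

set_option autoImplicit false

open Filter Topology MeasureTheory ProbabilityTheory
open scoped ContDiff

namespace Pool.Agent.Results.MP_6b977f_mp.SquareFullDensity

open Pool.Agent.W745.RW (lap)
open Pool.Agent.N661.BR (J0 resc IsCutoff)

/-- the open square with vertices `0` and `a + a i` -/
def Square (a : ℝ) : Set ℂ := {z | (0 < z.re ∧ z.re < a) ∧ 0 < z.im ∧ z.im < a}

/-- the Dirichlet condition (on the lines through the sides of the square) -/
def Dirichlet (a : ℝ) (u : ℂ → ℝ) : Prop :=
  ∀ z : ℂ, (z.re = 0 ∨ z.re = a ∨ z.im = 0 ∨ z.im = a) → u z = 0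

/-- the Neumann condition (on the lines through the sides of the square) -/
def Neumann (a : ℝ) (u : ℂ → ℝ) : Prop :=
  (∀ z : ℂ, (z.re = 0 ∨ z.re = a) → fderiv ℝ u z 1 = 0) ∧
  (∀ z : ℂ, (z.im = 0 ∨ z.im = a) → fderiv ℝ u z Complex.I = 0)

/-- **Theorem.** There is a Borel probability measure `μ` on `C(ℂ, ℝ)` for which every finite linear
combination of values `∑ t i * f (w i)` has the centred normal law with variance
`∑ t i * t i' * J0 |w i - w i'|`, and for which almost all `f` are smooth solutions of `Δf + f = 0`
(the law of the isotropic random wave), such that for every `a > 0`,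
`Ω = (0, a)²`, and for `BC` the Dirichlet or the Neumann condition: there are
`0 ≤ lam 0 ≤ lam 1 ≤ ...` and smooth real functions `u n` with `Δ (u n) + lam n * u n = 0` and
`BC (u n)` which are an orthogonal basis of `L²(Ω)` with `∫_Ω (u n)² = |Ω|`, and a strictly increasing
sequence `σ` of full density, such that
* for all `k`, `ρ` and `ε > 0`, for all large `j`, on every bounded convex set `C` with
  `diam C ≤ ρ |C|`, `|C| > 0`, the second moments and the characteristic functions of
  `∑ t i * u (σ j) (z + w i / √lam)`, `z` uniform in `C`, `|w i| ≤ ρ`, `|t i| ≤ ρ`, are within `ε` of those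
  of the isotropic random wave;
* for every cut-off `χ` the local measures of `u (σ j)` on `Ω` converge weakly to `μ`. -/
theorem result :
    letI : MeasurableSpace C(ℂ, ℝ) := borel C(ℂ, ℝ)
    ∃ μ : Measure C(ℂ, ℝ), IsProbabilityMeasure μ ∧
      (∀ (k : ℕ) (w : Fin k → ℂ) (t : Fin k → ℝ), μ.map (fun f => ∑ i, t i * f (w i)) =
        gaussianReal 0 (∑ i, ∑ i', t i * t i' * J0 ‖w i - w i'‖).toNNReal) ∧
      (∀ᵐ f : C(ℂ, ℝ) ∂μ, ContDiff ℝ ∞ (f : ℂ → ℝ) ∧ ∀ z, lap (f : ℂ → ℝ) z + f z = 0) ∧
      ∀ (a : ℝ) (_ha : 0 < a) (BC : (ℂ → ℝ) → Prop) (_hBC : BC = Dirichlet a ∨ BC = Neumann a),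
      ∃ (lam : ℕ → ℝ) (u : ℕ → ℂ → ℝ), Monotone lam ∧ (∀ n, 0 ≤ lam n) ∧
        (∀ n, ContDiff ℝ ∞ (u n)) ∧ (∀ n z, lap (u n) z + lam n * u n z = 0) ∧ (∀ n, BC (u n)) ∧
        (∀ n m, ∫ z in Square a, u n z * u m z = if n = m then volume.real (Square a) else 0) ∧
        (∀ f : ℂ → ℝ, MemLp f 2 (volume.restrict (Square a)) →
          (∀ n, ∫ z in Square a, f z * u n z = 0) → f =ᵐ[volume.restrict (Square a)] 0) ∧
        ∃ σ : ℕ → ℕ, StrictMono σ ∧
          Tendsto (fun N : ℕ => (Nat.card {j // σ j ≤ N} : ℝ) / N) atTop (𝓝 1) ∧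
          (∀ (k : ℕ) (ρ ε : ℝ), 0 < ε → ∀ᶠ j in atTop,
            ∀ (w : Fin k → ℂ) (t : Fin k → ℝ), (∀ i, ‖w i‖ ≤ ρ) → (∀ i, |t i| ≤ ρ) →
              ∀ C : Set ℂ, Convex ℝ C → Bornology.IsBounded C → 0 < volume.real C →
                Metric.diam C ≤ ρ * volume.real C →
                |1 / volume.real C * (∫ z in C,
                  (∑ i, t i * u (σ j) (z + w i / ((√(lam (σ j)) : ℝ) : ℂ))) ^ 2) -
                  ∑ i, ∑ i', t i * t i' * J0 ‖w i - w i'‖| ≤ ε ∧
                ‖((1 / volume.real C : ℝ) : ℂ) * (∫ z in C, Complex.exp (Complex.I *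
                  ((∑ i, t i * u (σ j) (z + w i / ((√(lam (σ j)) : ℝ) : ℂ)) : ℝ) : ℂ))) -
                  ((Real.exp (-(∑ i, ∑ i', t i * t i' * J0 ‖w i - w i'‖) / 2) : ℝ) : ℂ)‖ ≤ ε) ∧
          ∀ χ : ℝ → ℝ, IsCutoff χ →
            ∃ h : ∀ j z, Continuous (resc χ (Square a) (lam (σ j)) (u (σ j)) z),
              ∀ F : C(ℂ, ℝ) → ℝ, Continuous F → (∃ B : ℝ, ∀ f, |F f| ≤ B) →
                Tendsto (fun j => (1 / volume.real (Square a) : ℝ) * ∫ z in Square a,
                  F ⟨resc χ (Square a) (lam (σ j)) (u (σ j)) z, h j z⟩) atTop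
                  (𝓝 (∫ f, F f ∂μ)) := by
  obtain ⟨μ, m1, m2, m3⟩ := Pool.Agent.Zk91.SQ.final
    Pool.Agent.Zk85.SQ.m1 Pool.Agent.Zk63.SQ.m2
    Pool.Agent.Zk50.SQ.m3 Pool.Agent.Zk80.SQ.m4 Pool.Agent.Zk55.SQ.m5 Pool.Agent.Zk55.SQ.m6
    Pool.Agent.Zk80.SQ.b1 Pool.Agent.Zk55.SQ.b2 Pool.Agent.Zk63.SQ.b3 Pool.Agent.Zk55.SQ.b4
    Pool.Agent.Zk85.SQ.e Pool.Agent.Zk80.SQ.w1 Pool.Agent.Zk91.SQ.w2 Pool.Agent.Zk85.SQ.w3
    Pool.Agent.Zk55.SQ.W4.w4 Pool.Agent.Zk50.SQ.w5 Pool.Agent.Zk91.SQ.w7 Pool.Agent.Zk20.SQ.w8
  refine ⟨μ, m1, m2, Pool.Agent.Zk91.SQ.onMW Pool.Agent.Zk99.SQ.v1 Pool.Agent.Zk91.SQ.v2'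
    Pool.Agent.Zk20.SQ.v3 μ m1 m2, fun a ha BC hBC => ?_⟩
  rcases hBC with h | h
  · subst h
    exact (m3 a ha).1
  · subst h
    exact (m3 a ha).2

end Pool.Agent.Results.MP_6b977f_mp.SquareFullDensity
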