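import Pool.Agent.Zk60.BW.Fin

/-!
# Billiards tiled by rectangles with Berry sequences (MP_6b977f_mp)

The plane is `ℂ`. The definitions `MW`, `lin`, `J0`, `IsRandomWave`, `resc`, `IsCutoff`,
`IsLocalLimit` are those of `Pool.Agent.N661.BR.Defs` (the space of the smooth solutions of
`Δf + f = 0`, linear combinations of values, the Bessel function, the law of the isotropic random
wave, the rescaled cut-off eigenfunction, the cut-offs, and the limit points of the local
measures); `dx f z`, `dy f z` are the partial derivatives and `lap f = dx (dx f) + dy (dy f)`.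

Let `a, b > 0` with `(a/b)²` rational. `Grid a b` is the union of the lines `Re z ∈ aℤ` and
`Im z ∈ bℤ`. There are explicit smooth functions `u n` on the plane with
`Δ(u n) + lam n * u n = 0`, `lam n → ∞`, which satisfy the Dirichlet condition (or, for another
choice, the Neumann condition) on all lines of the grid, and such that on EVERY bounded nonempty
open set `Ω` with `∂Ω ⊆ Grid a b` (rectangles, L-shaped and all other polygons tiled by translates
of the rectangle with sides `a, b`, with or without holes; most of them are pseudo-integrable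
billiards) the normalization `∫_Ω (u n)² = |Ω|` holds and the local measures of `u n` on `Ω`
converge to the law of the isotropic random wave.
-/

set_option autoImplicit false

open Filter Topology MeasureTheory Set
open scoped ContDiff

namespace Pool.Agent.Results.MP_6b977f_mp.TiledBilliards

open Pool.Agent.W745.RW (lap dx dy)
open Pool.Agent.N661.BR (J0 MW lin IsRandomWave resc IsCutoff IsLocalLimit)
open Pool.Agent.Zk60.BW (Grid)

/-- the Dirichlet condition on all lines of the grid -/
def Dirichlet (a b : ℝ) (u : ℂ → ℝ) : Prop := ∀ z ∈ Grid a b, u z = 0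

/-- the Neumann condition on all lines of the grid -/
def Neumann (a b : ℝ) (u : ℂ → ℝ) : Prop :=
  ∀ z : ℂ, ((∃ j : ℤ, z.re = j * a) → dx u z = 0) ∧ ((∃ j : ℤ, z.im = j * b) → dy u z = 0)

/-- **Theorem.** Let `a, b > 0` with `(a/b)² = p/q` rational, and let `BC` be one of the two
boundary conditions. There are `lam n → ∞` and smooth functions `u n` on the plane with
`Δ(u n) + lam n * u n = 0` and with the boundary condition `BC` on the grid such that for every
bounded nonempty open set `Ω` with `∂Ω ⊆ Grid a b`: `∫_Ω (u n)² = |Ω|`, all finite dimensional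
characteristic functions of the local measures converge to those of the isotropic random wave, and
a probability law `μ` on `MW` is a limit point of the local measures if and only if it is the law
of the isotropic random wave. -/
theorem result (a b : ℝ) (ha : 0 < a) (hb : 0 < b) (p q : ℕ) (hp : 0 < p) (hq : 0 < q)
    (hab : (q : ℝ) * a ^ 2 = p * b ^ 2) (BC : (ℂ → ℝ) → Prop)
    (hBC : BC = Dirichlet a b ∨ BC = Neumann a b) :
    ∃ (lam : ℕ → ℝ) (u : ℕ → ℂ → ℝ), Tendsto lam atTop atTop ∧
      (∀ n, ContDiff ℝ ∞ (u n)) ∧ (∀ n z, lap (u n) z + lam n * u n z = 0) ∧ (∀ n, BC (u n)) ∧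
      ∀ Ω : Set ℂ, IsOpen Ω → Ω.Nonempty → Bornology.IsBounded Ω → frontier Ω ⊆ Grid a b →
        (∀ n, ∫ z in Ω, u n z ^ 2 = volume.real Ω) ∧
        ∀ χ : ℝ → ℝ, IsCutoff χ →
          (∀ (k : ℕ) (w : Fin k → ℂ) (t : Fin k → ℝ),
            Tendsto (fun n => (1 / volume.real Ω : ℝ) * ∫ z in Ω, Complex.exp
              (Complex.I * ((∑ j, t j * resc χ Ω (lam n) (u n) z (w j) : ℝ) : ℂ))) atTop
              (𝓝 ((Real.exp (-(∑ i, ∑ j, t i * t j * J0 ‖w i - w j‖) / 2) : ℝ) : ℂ))) ∧
          ∀ μ : Measure MW, IsProbabilityMeasure μ →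
            (IsLocalLimit χ Ω lam u μ ↔ IsRandomWave μ) := by
  have D : ∀ n, Pool.Agent.Zk60.BW.Dat a b n := fun n =>
    (Pool.Agent.Zk60.BW.exists_dat a b ha hb p q hp hq hab n).some
  have key : ∀ φ : ℝ, (∀ n, BC ((D n).u φ)) →
      ∃ (lam : ℕ → ℝ) (u : ℕ → ℂ → ℝ), Tendsto lam atTop atTop ∧
      (∀ n, ContDiff ℝ ∞ (u n)) ∧ (∀ n z, lap (u n) z + lam n * u n z = 0) ∧ (∀ n, BC (u n)) ∧
      ∀ Ω : Set ℂ, IsOpen Ω → Ω.Nonempty → Bornology.IsBounded Ω → frontier Ω ⊆ Grid a b →
        (∀ n, ∫ z in Ω, u n z ^ 2 = volume.real Ω) ∧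
        ∀ χ : ℝ → ℝ, IsCutoff χ →
          (∀ (k : ℕ) (w : Fin k → ℂ) (t : Fin k → ℝ),
            Tendsto (fun n => (1 / volume.real Ω : ℝ) * ∫ z in Ω, Complex.exp
              (Complex.I * ((∑ j, t j * resc χ Ω (lam n) (u n) z (w j) : ℝ) : ℂ))) atTop
              (𝓝 ((Real.exp (-(∑ i, ∑ j, t i * t j * J0 ‖w i - w j‖) / 2) : ℝ) : ℂ))) ∧
          ∀ μ : Measure MW, IsProbabilityMeasure μ →
            (IsLocalLimit χ Ω lam u μ ↔ IsRandomWave μ) := by
    intro φ hφ
    refine ⟨fun n => (D n).lam, fun n => (D n).u φ, Pool.Agent.Zk60.BW.tendsto_lam ha D,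
      fun n => Pool.Agent.Zk60.BW.contDiff_u (D n) φ, fun n z => (D n).helmholtz φ z, hφ, ?_⟩
    intro Ω hΩ hne hbd hf
    refine ⟨fun n => (D n).normalized ha hb φ Ω hΩ hbd hf, fun χ hχ => ?_⟩
    have h1 := fun (k : ℕ) (w : Fin k → ℂ) (t : Fin k → ℝ) =>
      Pool.Agent.Zk60.BW.tendsto_cut ha hb D φ Ω hΩ hne hbd hf χ hχ w t
    refine ⟨h1, fun μ hμ => ?_⟩
    exact Pool.Agent.Zk60.BW.wave_iff (fun k w t n => (1 / volume.real Ω : ℝ) * ∫ z in Ω,
      Complex.exp (Complex.I * ((∑ j, t j * resc χ Ω ((D n).lam) ((D n).u φ) z (w j) : ℝ) : ℂ)))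
      h1 μ
  rcases hBC with h | h
  · refine key 0 fun n => ?_
    rw [h]
    exact fun z hz => (D n).dirichlet ha hb z hz
  · refine key (Real.pi / 2) fun n => ?_
    rw [h]
    exact fun z => (D n).neumann ha hb z

end Pool.Agent.Results.MP_6b977f_mp.TiledBilliards
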