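import Pool.Agent.Zk91.KB.Scale
import Pool.Agent.Zk91.KB.BC

/-!
# Eigenfunctions of planar billiards which are random waves at the scale of the wavelength
(MP_6b977f_mp)

The plane is `ℂ`; `lap` is the Laplacian, `J0` the Bessel function, both from earlier files.

A set `M` of pairs (point, unit vector) describes mirrors with their normals: `Dirichlet M u` says
that `u` vanishes at the points, `Neumann M u` says that the normal derivative of `u` vanishes at
the points. `Grid a b` are the lines `Re z ∈ a ℤ`, `Im z ∈ b ℤ`; `Kaleidoscope r s` are the lines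
`Re (e^{iπk/r} z) ∈ s ℤ` (`k` even), `Re (e^{iπk/r} z) ∈ 2 cos (π/r) s ℤ` (`k` odd): for `r = 4` the
mirrors of the tiling by right isosceles triangles, for `r = 6` the lines through the sides and the
altitudes of the tiling by equilateral triangles. A bounded domain with frontier in the mirrors is
a billiard (a rectangle with rational squared ratio of the sides, the triangles with angles
`60-60-60`, `45-45-90`, `30-60-90`, and all polygons tiled by one of them), and the functions `u n` of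
the theorem are eigenfunctions of it.

The theorem: for every function `ψ → ∞`, growing as slowly as one likes, there are eigenfunctions
`u n` for which the law of the field `w ↦ u n (z + w / √λ)` with `z` random in a window `C` is close
to the law of the isotropic random wave, UNIFORMLY for all convex windows `C`, at all places of the
plane, of all sizes at least `ψ(λ)` wavelengths: the condition on the size is
`ψ(λ) diam C ≤ √λ |C|`; a disc of radius `ψ(λ) / √λ` satisfies it.
-/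

set_option autoImplicit false

open Filter Topology MeasureTheory Set
open scoped ContDiff

namespace Pool.Agent.Results.MP_6b977f_mp.WavelengthScale

open Pool.Agent.W745.RW (lap)
open Pool.Agent.N661.BR (J0)
open Pool.Agent.Zk91.KB (Mirror Kal Num K2 K4 K6)

/-- the lines `Re z ∈ a ℤ` with normal `1` and the lines `Im z ∈ b ℤ` with normal `i` -/
def Grid (a b : ℝ) : Set (ℂ × ℂ) :=
  {p | (p.2 = 1 ∧ ∃ j : ℤ, p.1.re = j * a) ∨ (p.2 = Complex.I ∧ ∃ j : ℤ, p.1.im = j * b)}

/-- the lines of `Mirror r s k` with normal `e^{-iπk/r}` -/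
def Kaleidoscope (r : ℕ) (s : ℝ) : Set (ℂ × ℂ) :=
  {p | ∃ k : ℕ, p.1 ∈ Mirror r s k ∧
    p.2 = Complex.exp (-(Complex.I * ((Real.pi * k / r : ℝ) : ℂ)))}

/-- the mirrors which are considered: rectangular grids with rational squared ratio of the sides,
the square and the triangular kaleidoscope -/
def IsArithmetic (M : Set (ℂ × ℂ)) : Prop :=
  (∃ (a b : ℝ) (p q : ℕ), 0 < a ∧ 0 < b ∧ 0 < p ∧ 0 < q ∧ q * a ^ 2 = p * b ^ 2 ∧
    M = Grid a b) ∨
  ∃ s : ℝ, 0 < s ∧ (M = Kaleidoscope 4 s ∨ M = Kaleidoscope 6 s)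

/-- the Dirichlet condition on the mirrors -/
def Dirichlet (M : Set (ℂ × ℂ)) (u : ℂ → ℝ) : Prop := ∀ p ∈ M, u p.1 = 0

/-- the Neumann condition on the mirrors -/
def Neumann (M : Set (ℂ × ℂ)) (u : ℂ → ℝ) : Prop := ∀ p ∈ M, fderiv ℝ u p.1 p.2 = 0

/-- the conclusion of the theorem -/
def Conclusion (BC : (ℂ → ℝ) → Prop) (ψ : ℝ → ℝ) : Prop :=
  ∃ (lam : ℕ → ℝ) (u : ℕ → ℂ → ℝ), Tendsto lam atTop atTop ∧
    (∀ n, ContDiff ℝ ∞ (u n)) ∧ (∀ n z, lap (u n) z + lam n * u n z = 0) ∧ (∀ n, BC (u n)) ∧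
    ∀ (k : ℕ) (ρ ε : ℝ), 0 < ε → ∀ᶠ n in atTop,
      ∀ C : Set ℂ, Convex ℝ C → Bornology.IsBounded C → 0 < volume.real C →
        ψ (lam n) * Metric.diam C ≤ √(lam n) * volume.real C →
        |1 / volume.real C * (∫ z in C, u n z ^ 2) - 1| ≤ ε ∧
        ∀ (w : Fin k → ℂ) (t : Fin k → ℝ), (∀ j, ‖w j‖ ≤ ρ) → (∀ j, |t j| ≤ ρ) →
          ‖((1 / volume.real C : ℝ) : ℂ) * (∫ z in C, Complex.exp
            (Complex.I * ((∑ j, t j * u n (z + w j / ((√(lam n) : ℝ) : ℂ)) : ℝ) : ℂ))) -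
            ((Real.exp (-(∑ i, ∑ j, t i * t j * J0 ‖w i - w j‖) / 2) : ℝ) : ℂ)‖ ≤ ε

theorem conclusion_of {ν : ℕ} (K : Kal ν) (M : Set (ℂ × ℂ))
    (hD : ∀ (n : ℕ) (d : Num K.D (K.B + K.B) n) (R : ℕ), Dirichlet M (K.u d R 0))
    (hN : ∀ (n : ℕ) (d : Num K.D (K.B + K.B) n) (R : ℕ), Neumann M (K.u d R (Real.pi / 2)))
    (BC : (ℂ → ℝ) → Prop) (hBC : BC = Dirichlet M ∨ BC = Neumann M) (ψ : ℝ → ℝ)
    (hψ : Tendsto ψ atTop atTop) : Conclusion BC ψ := by
  obtain ⟨s⟩ := Pool.Agent.Zk91.KB.exists_sc K ψ hψ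
  have main : ∀ φ : ℝ, (∀ n, BC (K.u (s.d n) (s.R n) φ)) → Conclusion BC ψ := by
    intro φ hφ
    refine ⟨fun n => K.lam (s.d n) (s.R n), fun n => K.u (s.d n) (s.R n) φ,
      Pool.Agent.Zk91.KB.tendsto_lam' s.d s.R s.pos, fun n => K.contDiff (s.d n) (s.R n) φ,
      fun n z => K.helmholtz (s.d n) (s.R n) φ z, hφ, fun k ρ ε hε => ?_⟩
    filter_upwards [s.char φ k ρ ε hε, s.sq φ ε hε] with n h1 h2
    intro C c1 c2 c3 c4
    exact ⟨h2 C ⟨c1, c2, c3, c4⟩, fun w t hw ht => h1 w t hw ht C ⟨c1, c2, c3, c4⟩⟩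
  rcases hBC with h | h
  · exact main 0 fun n => by rw [h]; exact hD n (s.d n) (s.R n)
  · exact main (Real.pi / 2) fun n => by rw [h]; exact hN n (s.d n) (s.R n)

/-- **Theorem.** Let `M` be the mirrors of an arithmetic kaleidoscope, `BC` one of the two boundary
conditions on them, and `ψ` any function with `ψ → ∞`. There are `lam n → ∞` and smooth `u n` on the
plane with `Δ(u n) + lam n * u n = 0` and `BC (u n)` such that for all `k, ρ, ε > 0` and all large `n` the
following holds for EVERY bounded convex `C` of positive area with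
`ψ (lam n) * diam C ≤ √(lam n) * |C|`: the mean of `(u n)²` over `C` differs from `1` by at most `ε`,
and the characteristic function of the field `w ↦ u n (z + w / √(lam n))`, `z` random in `C`, differs
from the characteristic function of the isotropic random wave by at most `ε`, for all `k` points `w`
in the disc of radius `ρ` and all `k` coefficients `t` in `[-ρ, ρ]`. -/
theorem result (M : Set (ℂ × ℂ)) (hM : IsArithmetic M) (BC : (ℂ → ℝ) → Prop)
    (hBC : BC = Dirichlet M ∨ BC = Neumann M) (ψ : ℝ → ℝ) (hψ : Tendsto ψ atTop atTop) :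
    ∃ (lam : ℕ → ℝ) (u : ℕ → ℂ → ℝ), Tendsto lam atTop atTop ∧
      (∀ n, ContDiff ℝ ∞ (u n)) ∧ (∀ n z, lap (u n) z + lam n * u n z = 0) ∧ (∀ n, BC (u n)) ∧
      ∀ (k : ℕ) (ρ ε : ℝ), 0 < ε → ∀ᶠ n in atTop,
        ∀ C : Set ℂ, Convex ℝ C → Bornology.IsBounded C → 0 < volume.real C →
          ψ (lam n) * Metric.diam C ≤ √(lam n) * volume.real C →
          |1 / volume.real C * (∫ z in C, u n z ^ 2) - 1| ≤ ε ∧
          ∀ (w : Fin k → ℂ) (t : Fin k → ℝ), (∀ j, ‖w j‖ ≤ ρ) → (∀ j, |t j| ≤ ρ) →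
            ‖((1 / volume.real C : ℝ) : ℂ) * (∫ z in C, Complex.exp
              (Complex.I * ((∑ j, t j * u n (z + w j / ((√(lam n) : ℝ) : ℂ)) : ℝ) : ℂ))) -
              ((Real.exp (-(∑ i, ∑ j, t i * t j * J0 ‖w i - w j‖) / 2) : ℝ) : ℂ)‖ ≤ ε := by
  rcases hM with ⟨a, b, p, q, ha, hb, hp, hq, hab, rfl⟩ | ⟨s, hs, rfl | rfl⟩
  · refine conclusion_of (K2 a b ha hb p q hp hq hab) _ (fun n d R => ?_) (fun n d R => ?_) BC hBC
      ψ hψ
    · rintro ⟨z, v⟩ (⟨-, h⟩ | ⟨-, h⟩)
      · refine (K2 a b ha hb p q hp hq hab).dir_re d a ?_ R z h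
        show Real.pi / a * a = Real.pi
        field_simp
      · refine (K2 a b ha hb p q hp hq hab).dir_im d b ?_ R z h
        show Real.pi / b * b = Real.pi
        field_simp
    · rintro ⟨z, v⟩ (⟨hv, h⟩ | ⟨hv, h⟩)
      · simp only at hv
        subst hv
        refine (K2 a b ha hb p q hp hq hab).neu_re d a ?_ R z h
        show Real.pi / a * a = Real.pi
        field_simp
      · simp only at hv
        subst hv
        refine (K2 a b ha hb p q hp hq hab).neu_im d b ?_ R z h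
        show Real.pi / b * b = Real.pi
        field_simp
  · refine conclusion_of (K4 s hs) _ (fun n d R => ?_) (fun n d R => ?_) BC hBC ψ hψ
    · rintro ⟨z, v⟩ ⟨k, hz, -⟩
      exact Pool.Agent.Zk91.KB.dir4 s hs d R k z hz
    · rintro ⟨z, v⟩ ⟨k, hz, hv⟩
      simp only at hv
      subst hv
      exact Pool.Agent.Zk91.KB.neu4 s hs d R k z hz
  · refine conclusion_of (K6 s hs) _ (fun n d R => ?_) (fun n d R => ?_) BC hBC ψ hψ
    · rintro ⟨z, v⟩ ⟨k, hz, -⟩
      exact Pool.Agent.Zk91.KB.dir6 s hs d R k z hz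
    · rintro ⟨z, v⟩ ⟨k, hz, hv⟩
      simp only at hv
      subst hv
      exact Pool.Agent.Zk91.KB.neu6 s hs d R k z hz

end Pool.Agent.Results.MP_6b977f_mp.WavelengthScale
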